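import Mathlib
import Pool.Agent.K7.H63.TQ.Reg

/-! Sums over pairs of integers, sorted by their greatest common divisor. -/

set_option autoImplicit false

namespace Pool.Agent.K7.H63.RT

open Finset

/-- the integers up to `X` prime to `k` -/
def V (k X : ℕ) : Finset ℕ := (Icc 1 X).filter (fun m => Nat.Coprime m k)

/-- the coprime pairs of integers up to `X` prime to `k` -/
def CP (k X : ℕ) : Finset (ℕ × ℕ) := (V k X ×ˢ V k X).filter (fun x => Nat.Coprime x.1 x.2)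

theorem mem_V {k X m : ℕ} : m ∈ V k X ↔ (1 ≤ m ∧ m ≤ X) ∧ Nat.Coprime m k := by
  unfold V; rw [mem_filter, mem_Icc]

theorem mem_CP {k X : ℕ} {x : ℕ × ℕ} : x ∈ CP k X ↔ (x.1 ∈ V k X ∧ x.2 ∈ V k X) ∧ Nat.Coprime x.1 x.2 := by
  unfold CP; rw [mem_filter, mem_product]

theorem V_mono {k X Y : ℕ} (h : X ≤ Y) : V k X ⊆ V k Y := by
  intro m hm
  rw [mem_V] at hm ⊢
  exact ⟨⟨hm.1.1, hm.1.2.trans h⟩, hm.2⟩

theorem CP_mono {k X Y : ℕ} (h : X ≤ Y) : CP k X ⊆ CP k Y := by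
  intro x hx
  rw [mem_CP] at hx ⊢
  exact ⟨⟨V_mono h hx.1.1, V_mono h hx.1.2⟩, hx.2⟩

/-- sorting by the greatest common divisor -/
theorem split (k X : ℕ) (F : ℕ → ℕ → ℝ) : ∑ m ∈ V k X, ∑ n ∈ V k X, F m n =
    ∑ d ∈ V k X, ∑ x ∈ CP k (X / d), F (d * x.1) (d * x.2) := by
  rw [← Finset.sum_product', Finset.sum_sigma']
  refine Finset.sum_nbij' (fun y => ⟨Nat.gcd y.1 y.2, (y.1 / Nat.gcd y.1 y.2, y.2 / Nat.gcd y.1 y.2)⟩)
    (fun z => (z.1 * z.2.1, z.1 * z.2.2)) ?_ ?_ ?_ ?_ ?_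
  · rintro ⟨m, n⟩ h
    obtain ⟨h1, h2⟩ := mem_product.1 h
    obtain ⟨⟨h3, h4⟩, h5⟩ := mem_V.1 h1
    obtain ⟨⟨h6, h7⟩, h8⟩ := mem_V.1 h2
    simp only at h3 h4 h5 h6 h7 h8
    have hg : 0 < Nat.gcd m n := Nat.gcd_pos_of_pos_left _ (by omega)
    obtain ⟨a, ha⟩ := Nat.gcd_dvd_left m n
    obtain ⟨b, hb⟩ := Nat.gcd_dvd_right m n
    have ha' : m / Nat.gcd m n = a := Nat.div_eq_of_eq_mul_right hg ha
    have hb' : n / Nat.gcd m n = b := Nat.div_eq_of_eq_mul_right hg hb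
    have ha0 : 1 ≤ a := by
      by_contra h0
      have : a = 0 := by omega
      rw [this] at ha; omega
    have hb0 : 1 ≤ b := by
      by_contra h0
      have : b = 0 := by omega
      rw [this] at hb; omega
    rw [mem_sigma, mem_CP, mem_V, mem_V, mem_V]
    refine ⟨⟨⟨hg, (Nat.gcd_le_left _ (by omega)).trans h4⟩, h5.coprime_dvd_left (Nat.gcd_dvd_left m n)⟩,
      ⟨⟨⟨?_, ?_⟩, ?_⟩, ⟨⟨?_, ?_⟩, ?_⟩⟩, Nat.coprime_div_gcd_div_gcd hg⟩
    · show 1 ≤ m / Nat.gcd m n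
      rw [ha']; exact ha0
    · exact Nat.div_le_div_right h4
    · exact h5.coprime_dvd_left (Nat.div_dvd_of_dvd (Nat.gcd_dvd_left m n))
    · show 1 ≤ n / Nat.gcd m n
      rw [hb']; exact hb0
    · exact Nat.div_le_div_right h7
    · exact h8.coprime_dvd_left (Nat.div_dvd_of_dvd (Nat.gcd_dvd_right m n))
  · rintro ⟨d, a, b⟩ h
    rw [mem_sigma, mem_CP, mem_V, mem_V, mem_V] at h
    obtain ⟨⟨⟨h1, h2⟩, h3⟩, ⟨⟨⟨h4, h5⟩, h6⟩, ⟨h7, h8⟩, h9⟩, h10⟩ := h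
    simp only at h1 h2 h3 h4 h5 h6 h7 h8 h9 h10
    rw [mem_product, mem_V, mem_V]
    refine ⟨⟨⟨Nat.mul_pos h1 h4, ?_⟩, Nat.Coprime.mul_left h3 h6⟩,
      ⟨⟨Nat.mul_pos h1 h7, ?_⟩, Nat.Coprime.mul_left h3 h9⟩⟩
    · show d * a ≤ X
      rw [mul_comm]
      exact (Nat.le_div_iff_mul_le h1).1 h5
    · show d * b ≤ X
      rw [mul_comm]
      exact (Nat.le_div_iff_mul_le h1).1 h8
  · rintro ⟨m, n⟩ _
    simp only
    rw [Nat.mul_div_cancel' (Nat.gcd_dvd_left m n), Nat.mul_div_cancel' (Nat.gcd_dvd_right m n)]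
  · rintro ⟨d, a, b⟩ h
    rw [mem_sigma, mem_CP, mem_V, mem_V, mem_V] at h
    obtain ⟨⟨⟨h1, h2⟩, h3⟩, ⟨⟨⟨h4, h5⟩, h6⟩, ⟨h7, h8⟩, h9⟩, h10⟩ := h
    simp only at h1 h2 h3 h4 h5 h6 h7 h8 h9 h10
    have hg : Nat.gcd (d * a) (d * b) = d := by
      rw [Nat.gcd_mul_left, h10.gcd_eq_one, mul_one]
    simp only
    rw [hg, Nat.mul_div_cancel_left _ h1, Nat.mul_div_cancel_left _ h1]
  · rintro ⟨m, n⟩ _
    simp only
    rw [Nat.mul_div_cancel' (Nat.gcd_dvd_left m n), Nat.mul_div_cancel' (Nat.gcd_dvd_right m n)]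

/-- the harmonic sum over the integers prime to `k` -/
noncomputable def W (k X : ℕ) : ℝ := ∑ m ∈ V k X, 1 / (m : ℝ)

/-- the weighted number of the coprime pairs with the property `P` -/
noncomputable def S (k X : ℕ) (P : ℕ → ℕ → Prop) [∀ a b, Decidable (P a b)] : ℝ :=
  ∑ x ∈ CP k X, if P x.1 x.2 then 1 / ((x.1 : ℝ) * x.2) else 0

/-- all coprime pairs -/
noncomputable def T (k X : ℕ) : ℝ := ∑ x ∈ CP k X, 1 / ((x.1 : ℝ) * x.2)

/-- the sum of the inverse squares -/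
noncomputable def Z (k X : ℕ) : ℝ := ∑ d ∈ V k X, 1 / (d : ℝ) ^ 2

theorem W_nonneg (k X : ℕ) : 0 ≤ W k X := Finset.sum_nonneg fun _ _ => by positivity
theorem T_nonneg (k X : ℕ) : 0 ≤ T k X := Finset.sum_nonneg fun _ _ => by positivity
theorem Z_nonneg (k X : ℕ) : 0 ≤ Z k X := Finset.sum_nonneg fun _ _ => by positivity
theorem T_mono (k : ℕ) {X Y : ℕ} (h : X ≤ Y) : T k X ≤ T k Y :=
  Finset.sum_le_sum_of_subset_of_nonneg (CP_mono h) fun _ _ _ => by positivity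

theorem S_nonneg (k X : ℕ) (P : ℕ → ℕ → Prop) [∀ a b, Decidable (P a b)] : 0 ≤ S k X P :=
  Finset.sum_nonneg fun _ _ => by split_ifs <;> positivity

theorem S_mono (k : ℕ) {X Y : ℕ} (h : X ≤ Y) (P : ℕ → ℕ → Prop) [∀ a b, Decidable (P a b)] :
    S k X P ≤ S k Y P :=
  Finset.sum_le_sum_of_subset_of_nonneg (CP_mono h) fun _ _ _ => by split_ifs <;> positivity

/-- tails of the sum of the inverse squares -/
theorem tail (k X D : ℕ) (hD : 1 ≤ D) : Z k X ≤ ∑ d ∈ (V k X).filter (fun d => d ≤ D), 1 / (d : ℝ) ^ 2 + 1 / D := by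
  unfold Z
  rw [← Finset.sum_filter_add_sum_filter_not (V k X) (fun d => d ≤ D)]
  apply add_le_add le_rfl
  have h1 : ∑ d ∈ (V k X).filter (fun d => ¬ d ≤ D), 1 / (d : ℝ) ^ 2 ≤ ∑ d ∈ Ioc D (max D X), ((d : ℝ) ^ 2)⁻¹ := by
    have h2 : (V k X).filter (fun d => ¬ d ≤ D) ⊆ Ioc D (max D X) := by
      intro d hd
      obtain ⟨h3, h4⟩ := mem_filter.1 hd
      rw [mem_Ioc]
      exact ⟨by omega, (mem_V.1 h3).1.2.trans (le_max_right _ _)⟩
    refine (Finset.sum_le_sum_of_subset_of_nonneg h2 fun _ _ _ => by positivity).trans (le_of_eq ?_)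
    apply Finset.sum_congr rfl
    intro d _
    rw [one_div]
  refine h1.trans ((sum_Ioc_inv_sq_le_sub (α := ℝ) (by omega : D ≠ 0) (le_max_left D X)).trans ?_)
  rw [one_div]
  have : (0 : ℝ) ≤ (((max D X : ℕ) : ℝ))⁻¹ := by positivity
  linarith

theorem W_sq (k X : ℕ) : W k X ^ 2 = ∑ d ∈ V k X, 1 / (d : ℝ) ^ 2 * T k (X / d) := by
  have h1 : W k X ^ 2 = ∑ m ∈ V k X, ∑ n ∈ V k X, 1 / (m : ℝ) * (1 / (n : ℝ)) := by
    rw [pow_two, W, Finset.sum_mul_sum]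
  rw [h1, split]
  apply Finset.sum_congr rfl
  intro d hd
  rw [T, Finset.mul_sum]
  apply Finset.sum_congr rfl
  intro x _
  push_cast
  rw [div_mul_div_comm, div_mul_div_comm]
  congr 1
  ring

/-- the lower bound of the square -/
theorem le_W_sq (k X D : ℕ) (hD : 1 ≤ D) : (Z k X - 1 / D) * T k (X / D) ≤ W k X ^ 2 := by
  have h1 : ∑ d ∈ (V k X).filter (fun d => d ≤ D), 1 / (d : ℝ) ^ 2 * T k (X / d) ≤ W k X ^ 2 := by
    rw [W_sq]
    exact Finset.sum_le_sum_of_subset_of_nonneg (filter_subset _ _)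
      fun d _ _ => mul_nonneg (by positivity) (T_nonneg _ _)
  refine le_trans ?_ h1
  have h2 : (∑ d ∈ (V k X).filter (fun d => d ≤ D), 1 / (d : ℝ) ^ 2) * T k (X / D) ≤
      ∑ d ∈ (V k X).filter (fun d => d ≤ D), 1 / (d : ℝ) ^ 2 * T k (X / d) := by
    rw [Finset.sum_mul]
    apply Finset.sum_le_sum
    intro d hd
    obtain ⟨h3, h4⟩ := mem_filter.1 hd
    apply mul_le_mul_of_nonneg_left _ (by positivity)
    apply T_mono
    exact Nat.div_le_div_left h4 (mem_V.1 h3).1.1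
  refine le_trans ?_ h2
  apply mul_le_mul_of_nonneg_right _ (T_nonneg _ _)
  have := tail k X D hD
  linarith

/-- the upper bound of the square -/
theorem W_sq_le (k X : ℕ) : W k X ^ 2 ≤ Z k X * T k X := by
  rw [W_sq, Z, Finset.sum_mul]
  apply Finset.sum_le_sum
  intro d hd
  apply mul_le_mul_of_nonneg_left _ (by positivity)
  exact T_mono _ (Nat.div_le_self _ _)

theorem Z_le (k X : ℕ) : Z k X ≤ 2 := by
  have h1 := tail k X 1 le_rfl
  have h2 : ∑ d ∈ (V k X).filter (fun d => d ≤ 1), 1 / (d : ℝ) ^ 2 ≤ 1 := by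
    have h3 : (V k X).filter (fun d => d ≤ 1) ⊆ {1} := by
      intro d hd
      obtain ⟨h4, h5⟩ := mem_filter.1 hd
      have := (mem_V.1 h4).1.1
      rw [mem_singleton]; omega
    refine (Finset.sum_le_sum_of_subset_of_nonneg h3 fun _ _ _ => by positivity).trans ?_
    simp
  have h3 : (1 : ℝ) / ((1 : ℕ) : ℝ) = 1 := by norm_num
  rw [h3] at h1
  linarith

theorem le_Z (k X : ℕ) (hX : 1 ≤ X) : 1 ≤ Z k X := by
  have h1 : (1 : ℕ) ∈ V k X := mem_V.2 ⟨⟨le_rfl, hX⟩, Nat.coprime_one_left _⟩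
  have h2 := Finset.single_le_sum (f := fun d : ℕ => 1 / (d : ℝ) ^ 2) (s := V k X) (fun d _ => by positivity) h1
  unfold Z
  refine le_trans (le_of_eq ?_) h2
  norm_num

/-- the coprime pairs near the boundary -/
theorem T_diff (k X D : ℕ) (hX : 1 ≤ X) (hD : 1 ≤ D) :
    T k X - T k (X / D) ≤ 2 * (1 + Real.log D) * W k X := by
  have hmono : CP k (X / D) ⊆ CP k X := CP_mono (Nat.div_le_self _ _)
  have h1 : T k X - T k (X / D) = ∑ x ∈ CP k X \ CP k (X / D), 1 / ((x.1 : ℝ) * x.2) := by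
    unfold T
    rw [← Finset.sum_sdiff hmono]
    ring
  have h2 : CP k X \ CP k (X / D) ⊆ (Ioc (X / D) X ×ˢ V k X) ∪ (V k X ×ˢ Ioc (X / D) X) := by
    intro x hx
    obtain ⟨h3, h4⟩ := mem_sdiff.1 hx
    obtain ⟨⟨h5, h6⟩, h7⟩ := mem_CP.1 h3
    rw [mem_union, mem_product, mem_product, mem_Ioc, mem_Ioc]
    obtain ⟨⟨h8, h9⟩, h10⟩ := mem_V.1 h5
    obtain ⟨⟨h11, h12⟩, h13⟩ := mem_V.1 h6
    by_cases h14 : x.1 ≤ X / D
    · right
      refine ⟨h5, ?_, h12⟩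
      by_contra h15
      apply h4
      rw [mem_CP, mem_V, mem_V]
      exact ⟨⟨⟨⟨h8, h14⟩, h10⟩, ⟨h11, by omega⟩, h13⟩, h7⟩
    · left
      exact ⟨⟨by omega, h9⟩, h6⟩
  have h3 : ∑ a ∈ Ioc (X / D) X, 1 / (a : ℝ) ≤ 1 + Real.log D := by
    refine le_trans (le_of_eq ?_) (Pool.Agent.K7.H63.TQ.hh_div hD X hX)
    have h4 := Finset.sum_Ioc_consecutive (fun a : ℕ => 1 / (a : ℝ)) (Nat.zero_le (X / D)) (Nat.div_le_self X D)
    have h5 : ∀ n : ℕ, Pool.Agent.K7.H63.TQ.hh n = ∑ a ∈ Ioc 0 n, 1 / (a : ℝ) := by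
      intro n
      unfold Pool.Agent.K7.H63.TQ.hh
      rfl
    rw [h5, h5, ← h4]
    ring
  rw [h1]
  refine (Finset.sum_le_sum_of_subset_of_nonneg h2 fun _ _ _ => by positivity).trans ?_
  have h6 : ∀ A B : Finset (ℕ × ℕ), ∑ x ∈ A ∪ B, 1 / ((x.1 : ℝ) * x.2) ≤
      ∑ x ∈ A, 1 / ((x.1 : ℝ) * x.2) + ∑ x ∈ B, 1 / ((x.1 : ℝ) * x.2) := by
    intro A B
    rw [← Finset.sum_union_inter]
    have : 0 ≤ ∑ x ∈ A ∩ B, 1 / ((x.1 : ℝ) * x.2) := Finset.sum_nonneg fun _ _ => by positivity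
    linarith
  refine (h6 _ _).trans ?_
  rw [Finset.sum_product, Finset.sum_product]
  have h4 : ∑ a ∈ Ioc (X / D) X, ∑ b ∈ V k X, 1 / ((a : ℝ) * b) = (∑ a ∈ Ioc (X / D) X, 1 / (a : ℝ)) * W k X := by
    unfold W
    rw [Finset.sum_mul_sum]
    apply Finset.sum_congr rfl; intro a _
    apply Finset.sum_congr rfl; intro b _
    rw [div_mul_div_comm, one_mul]
  have h5 : ∑ a ∈ V k X, ∑ b ∈ Ioc (X / D) X, 1 / ((a : ℝ) * b) = (∑ a ∈ Ioc (X / D) X, 1 / (a : ℝ)) * W k X := by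
    unfold W
    rw [mul_comm, Finset.sum_mul_sum]
    apply Finset.sum_congr rfl; intro a _
    apply Finset.sum_congr rfl; intro b _
    rw [div_mul_div_comm, one_mul]
  simp only at h4 h5 ⊢
  rw [h4, h5]
  have := mul_le_mul_of_nonneg_right h3 (W_nonneg k X)
  linarith

/-- the harmonic sum over the integers prime to `k` diverges -/
theorem W_tendsto (k : ℕ) (hk : 1 ≤ k) : Filter.Tendsto (W k) Filter.atTop Filter.atTop := by
  have hk0 : (0 : ℝ) < k := by exact_mod_cast hk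
  have h1 : ∀ X : ℕ, Pool.Agent.K7.H63.TQ.hh ((X - 1) / k) / (k + 1) ≤ W k X := by
    intro X
    have h2 : ((Icc 1 ((X - 1) / k)).image (fun j => k * j + 1)) ⊆ V k X := by
      intro m hm
      obtain ⟨j, hj, rfl⟩ := mem_image.1 hm
      obtain ⟨h3, h4⟩ := mem_Icc.1 hj
      rw [mem_V]
      refine ⟨⟨by omega, ?_⟩, ?_⟩
      · show k * j + 1 ≤ X
        have h5 := Nat.mul_div_le (X - 1) k
        have h6 := Nat.mul_le_mul_left k h4
        have h7 := Nat.mul_pos hk h3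
        omega
      · show Nat.Coprime (k * j + 1) k
        rw [Nat.coprime_comm, Nat.coprime_mul_left_add_right]
        exact Nat.coprime_one_right k
    have h3 : ∑ m ∈ (Icc 1 ((X - 1) / k)).image (fun j => k * j + 1), 1 / (m : ℝ) ≤ W k X :=
      Finset.sum_le_sum_of_subset_of_nonneg h2 fun _ _ _ => by positivity
    rw [Finset.sum_image (by
      intro i _ j _ hij
      simp only [Nat.add_right_cancel_iff] at hij
      exact Nat.eq_of_mul_eq_mul_left hk hij)] at h3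
    refine le_trans ?_ h3
    unfold Pool.Agent.K7.H63.TQ.hh
    rw [Finset.sum_div]
    apply Finset.sum_le_sum
    intro j hj
    have hj1 : (1 : ℝ) ≤ j := by exact_mod_cast (mem_Icc.1 hj).1
    push_cast
    rw [div_div]
    apply one_div_le_one_div_of_le (by positivity)
    nlinarith
  apply Filter.tendsto_atTop_mono h1
  apply Filter.Tendsto.atTop_div_const (by positivity)
  apply Pool.Agent.K7.H63.TQ.hh_tendsto.comp
  refine Filter.tendsto_atTop.2 fun B => ?_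
  filter_upwards [Filter.eventually_ge_atTop (B * k + 1)] with X hX
  rw [Nat.le_div_iff_mul_le hk]
  omega

end Pool.Agent.K7.H63.RT
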