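import Mathlib
import Pool.Agent.K7.H63.RT.Sum
import Pool.Agent.K7.H63.TQ.Samp

/-! A third of the coprime pairs, for an abstract relation between the forms `m n + h`. -/

set_option autoImplicit false

namespace Pool.Agent.K7.H63.RT

open Finset Pool.Agent.K7.H63.TQ

theorem adm4 (h : ℤ) (f : Fin 4 → ℤ × ℤ)
    (hf : ∀ i, ∃ m : ℕ, f i = ((m : ℤ), h) ∧ Nat.Coprime m h.natAbs) : Adm4 f := by
  intro p hp
  have hp' : Prime (p : ℤ) := Nat.prime_iff_prime_int.1 hp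
  by_cases hph : (p : ℤ) ∣ h
  · refine ⟨1, fun i hd => ?_⟩
    obtain ⟨m, h1, h2⟩ := hf i
    rw [h1] at hd
    simp only [mul_one] at hd
    have h3 : (p : ℤ) ∣ (m : ℤ) := by
      have := Int.dvd_sub hd hph
      simpa using this
    have h4 : p ∣ m := by exact_mod_cast h3
    have h5 : p ∣ h.natAbs := Int.natCast_dvd.1 hph
    exact Nat.not_coprime_of_dvd_of_dvd hp.one_lt h4 h5 h2
  · refine ⟨0, fun i hd => ?_⟩
    obtain ⟨m, h1, h2⟩ := hf i
    rw [h1] at hd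
    simp only [mul_zero, zero_add] at hd
    exact hph hd

open Classical in
theorem third_abs (K : ℕ) (hK : 1 ≤ K) (ε : ℝ) (hε : 0 < ε) (hε1 : ε ≤ 1 / 3) : ∃ C : ℝ, 1 ≤ C ∧
    ∀ (F : Set (ℤ × ℤ)) (R : ℤ × ℤ → ℤ × ℤ → Prop), (∀ x y, R x y → R y x) → HitR K F R →
    ∀ (h : ℤ) (X : ℕ), (∀ m : ℕ, 1 ≤ m → m ≤ X → ((m : ℤ), h) ∈ F) → C ≤ W h.natAbs X →
    ∀ Gd : ℕ → ℕ → Prop, (∀ d a b : ℕ, 1 ≤ d → 1 ≤ a → 1 ≤ b → d * a ≤ X → d * b ≤ X →
      Nat.Coprime a b → a ≠ b → R (((d * a : ℕ) : ℤ), h) (((d * b : ℕ) : ℤ), h) → Gd a b) →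
    (1 / 3 - ε) * T h.natAbs X ≤ S h.natAbs X (fun a b => a ≠ b ∧ Gd a b) := by
  obtain ⟨κ, hκ, H⟩ := third_w K hK (ε / 4) (by positivity)
  obtain ⟨D, hD⟩ := exists_nat_ge (4 / ε)
  have hD0 : (0 : ℝ) < D := lt_of_lt_of_le (by positivity) hD
  have hD1 : 1 ≤ D := by exact_mod_cast hD0
  have hDε : 1 / (D : ℝ) ≤ ε / 4 := by
    rw [div_le_iff₀ hD0]
    rw [div_le_iff₀ hε] at hD
    linarith
  obtain ⟨C, hC⟩ : ∃ C : ℝ, C = max (1 / κ) (max (16 * (1 + Real.log D) / ε) (4 / ε)) := ⟨_, rfl⟩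
  have hC1 : 1 / κ ≤ C := by rw [hC]; exact le_max_left _ _
  have hC2 : 16 * (1 + Real.log D) / ε ≤ C := by
    rw [hC]; exact (le_max_left _ _).trans (le_max_right _ _)
  have hC3 : 4 / ε ≤ C := by
    rw [hC]; exact (le_max_right _ _).trans (le_max_right _ _)
  have hC12 : 12 ≤ C := by
    refine le_trans ?_ hC3
    rw [le_div_iff₀ hε]; linarith
  refine ⟨C, by linarith, fun F R hs hhit h X hF hCW Gd hG => ?_⟩
  obtain ⟨k, hk⟩ : ∃ k : ℕ, k = h.natAbs := ⟨_, rfl⟩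
  rw [← hk] at hCW ⊢
  have hWpos : 0 < W k X := by linarith
  have hX1 : 1 ≤ X := by
    by_contra h0
    have h1 : X = 0 := by omega
    have : W k X = 0 := by
      unfold W V
      rw [h1]
      simp
    linarith
  -- the weighted theorem
  obtain ⟨io, hio⟩ : ∃ io : ℕ → ℤ × ℤ, io = fun m : ℕ => (((m : ℕ) : ℤ), h) := ⟨_, rfl⟩
  have hinj : Function.Injective io := by
    intro m n hmn
    rw [hio] at hmn
    simpa using hmn
  obtain ⟨w, hw⟩ : ∃ w : ℤ × ℤ → ℝ, w = fun f => 1 / (f.1 : ℝ) := ⟨_, rfl⟩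
  have hwio : ∀ m : ℕ, w (io m) = 1 / (m : ℝ) := by
    intro m
    rw [hw, hio]
    simp
  have hsum : ∀ g : ℤ × ℤ → ℝ, ∑ f ∈ (V k X).image io, g f = ∑ m ∈ V k X, g (io m) := by
    intro g
    rw [Finset.sum_image (fun f _ g _ hfg => hinj hfg)]
  have hWs : ∑ f ∈ (V k X).image io, w f = W k X := by
    rw [hsum, W]
    exact Finset.sum_congr rfl fun m _ => hwio m
  have h1 := H F R hs hhit ((V k X).image io) (by
      intro f hf
      obtain ⟨m, hm, rfl⟩ := mem_image.1 hf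
      rw [hio]
      exact hF m (mem_V.1 hm).1.1 (mem_V.1 hm).1.2) (by
      intro f hf
      apply adm4 h
      intro i
      obtain ⟨m, hm, hmf⟩ := mem_image.1 (hf i)
      refine ⟨m, ?_, ?_⟩
      · rw [← hmf, hio]
      · rw [← hk]; exact (mem_V.1 hm).2) w (by
      intro f hf
      obtain ⟨m, hm, rfl⟩ := mem_image.1 hf
      rw [hwio]; positivity) (by
      intro f hf
      obtain ⟨m, hm, rfl⟩ := mem_image.1 hf
      rw [hwio, hWs]
      have h2 : (1 : ℝ) ≤ m := by exact_mod_cast (mem_V.1 hm).1.1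
      calc 1 / (m : ℝ) ≤ 1 := by rw [div_le_one (by linarith)]; exact h2
        _ = κ * (1 / κ) := by field_simp
        _ ≤ κ * W k X := mul_le_mul_of_nonneg_left (hC1.trans hCW) hκ.le)
  rw [hWs, hsum] at h1
  have h2 : ∑ m ∈ V k X, ∑ g ∈ (V k X).image io, w (io m) * w g * (if R (io m) g then 1 else 0) =
      ∑ m ∈ V k X, ∑ n ∈ V k X, 1 / (m : ℝ) * (1 / (n : ℝ)) * (if R (io m) (io n) then 1 else 0) := by
    apply Finset.sum_congr rfl
    intro m _
    rw [hsum]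
    apply Finset.sum_congr rfl
    intro n _
    rw [hwio, hwio]
  rw [h2, split] at h1
  -- sorted by the greatest common divisor
  obtain ⟨s, hsdef⟩ : ∃ s : ℝ, s = S k X (fun a b => a ≠ b ∧ Gd a b) := ⟨_, rfl⟩
  have hs0 : 0 ≤ s := by rw [hsdef]; exact S_nonneg _ _ _
  have h3 : ∀ d ∈ V k X, ∑ x ∈ CP k (X / d), 1 / ((d * x.1 : ℕ) : ℝ) * (1 / ((d * x.2 : ℕ) : ℝ)) *
      (if R (io (d * x.1)) (io (d * x.2)) then 1 else 0) ≤ 1 / (d : ℝ) ^ 2 * (1 + s) := by
    intro d hd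
    have hd1 : 1 ≤ d := (mem_V.1 hd).1.1
    have h4 : ∀ x ∈ CP k (X / d), 1 / ((d * x.1 : ℕ) : ℝ) * (1 / ((d * x.2 : ℕ) : ℝ)) *
      (if R (io (d * x.1)) (io (d * x.2)) then 1 else 0) ≤
        1 / (d : ℝ) ^ 2 * ((if x = (1, 1) then 1 else 0) +
          (if x.1 ≠ x.2 ∧ Gd x.1 x.2 then 1 / ((x.1 : ℝ) * x.2) else 0)) := by
      intro x hx
      obtain ⟨⟨h5, h6⟩, h7⟩ := mem_CP.1 hx
      obtain ⟨⟨h8, h9⟩, -⟩ := mem_V.1 h5
      obtain ⟨⟨h11, h12⟩, -⟩ := mem_V.1 h6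
      have h9' : d * x.1 ≤ X := by rw [mul_comm]; exact (Nat.le_div_iff_mul_le hd1).1 h9
      have h12' : d * x.2 ≤ X := by rw [mul_comm]; exact (Nat.le_div_iff_mul_le hd1).1 h12
      have e1 : 1 / ((d * x.1 : ℕ) : ℝ) * (1 / ((d * x.2 : ℕ) : ℝ)) = 1 / (d : ℝ) ^ 2 * (1 / ((x.1 : ℝ) * x.2)) := by
        push_cast
        rw [div_mul_div_comm, div_mul_div_comm]
        congr 1
        ring
      rw [e1, mul_assoc]
      apply mul_le_mul_of_nonneg_left _ (by positivity)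
      have h13 : 0 ≤ (if x = (1, 1) then (1 : ℝ) else 0) := by split_ifs <;> norm_num
      have h14 : 0 ≤ (if x.1 ≠ x.2 ∧ Gd x.1 x.2 then 1 / ((x.1 : ℝ) * x.2) else 0) := by
        split_ifs <;> positivity
      by_cases hR : R (io (d * x.1)) (io (d * x.2))
      · rw [if_pos hR, mul_one]
        by_cases hx12 : x.1 = x.2
        · have h15 : x = (1, 1) := by
            have h16 : x.1 = 1 := by
              have := h7
              rw [← hx12, Nat.coprime_self] at this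
              exact this
            exact Prod.ext h16 (by rw [← hx12]; exact h16)
          rw [if_pos h15]
          have h17 : 1 / ((x.1 : ℝ) * x.2) = 1 := by rw [h15]; norm_num
          rw [h17] at h14 ⊢
          linarith
        · have h15 : x.1 ≠ x.2 ∧ Gd x.1 x.2 := by
            refine ⟨hx12, hG d x.1 x.2 hd1 h8 h11 h9' h12' h7 hx12 ?_⟩
            rw [hio] at hR
            exact hR
          rw [if_pos h15]
          linarith
      · rw [if_neg hR, mul_zero]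
        linarith
    refine (Finset.sum_le_sum h4).trans ?_
    rw [← Finset.mul_sum, Finset.sum_add_distrib]
    apply mul_le_mul_of_nonneg_left _ (by positivity)
    apply add_le_add
    · rw [Finset.sum_ite_eq']
      split_ifs <;> norm_num
    · rw [hsdef]
      exact S_mono k (Nat.div_le_self X d) (fun a b => a ≠ b ∧ Gd a b)
  have h4 : (1 / 3 - ε / 4) * W k X ^ 2 ≤ Z k X * (1 + s) := by
    refine h1.trans ((Finset.sum_le_sum h3).trans (le_of_eq ?_))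
    rw [← Finset.sum_mul, Z]
  -- the numbers
  have h5 := le_W_sq k X D hD1
  have h6 := W_sq_le k X
  have h7 := T_diff k X D hX1 hD1
  have h8 := Z_le k X
  have h9 := le_Z k X hX1
  have hT0 := T_nonneg k X
  have hT0' := T_nonneg k (X / D)
  obtain ⟨t, ht⟩ : ∃ t : ℝ, t = T k X := ⟨_, rfl⟩
  obtain ⟨t', ht'⟩ : ∃ t' : ℝ, t' = T k (X / D) := ⟨_, rfl⟩
  obtain ⟨z, hz⟩ : ∃ z : ℝ, z = Z k X := ⟨_, rfl⟩
  obtain ⟨v, hv⟩ : ∃ v : ℝ, v = W k X := ⟨_, rfl⟩
  obtain ⟨L, hL⟩ : ∃ L : ℝ, L = 1 + Real.log D := ⟨_, rfl⟩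
  have hL0 : 1 ≤ L := by
    rw [hL]
    have := Real.log_natCast_nonneg D
    linarith
  rw [← hsdef]
  rw [← ht] at h6 h7 hT0 ⊢
  rw [← ht'] at h5 h7 hT0'
  rw [← hz] at h4 h5 h6 h8 h9
  rw [← hv] at h4 h5 h6 h7 hCW hWpos
  rw [← hL] at h7 hC2
  have hz0 : 0 < z := by linarith
  -- `t` is large
  have h10 : v ^ 2 ≤ 2 * t := h6.trans (mul_le_mul_of_nonneg_right h8 hT0)
  have h11 : 2 * L * v ≤ ε / 4 * t := by
    have h12 : 16 * L ≤ ε * v := by
      have := hC2.trans hCW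
      rw [div_le_iff₀ hε] at this
      linarith
    have h13 : 16 * L * v ≤ ε * v * v := mul_le_mul_of_nonneg_right h12 hWpos.le
    have h14 : ε * v * v = ε * v ^ 2 := by ring
    have h15 := mul_le_mul_of_nonneg_left h10 hε.le
    linarith
  have h12 : 1 ≤ ε / 4 * t := by
    have h13 : 4 ≤ ε * v := by
      have := hC3.trans hCW
      rw [div_le_iff₀ hε] at this
      linarith
    have h14 : 12 ≤ v := hC12.trans hCW
    have h15 : 4 * v ≤ ε * v * v := mul_le_mul_of_nonneg_right h13 hWpos.le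
    have h16 : ε * v * v = ε * v ^ 2 := by ring
    have h17 := mul_le_mul_of_nonneg_left h10 hε.le
    linarith
  have h13 : (1 - ε / 4) * t ≤ t' := by linarith
  have h14 : (1 - ε / 4) * z * t' ≤ v ^ 2 := by
    refine le_trans (mul_le_mul_of_nonneg_right ?_ hT0') h5
    have h15 : 0 ≤ ε / 4 * (z - 1) := mul_nonneg (by linarith) (by linarith)
    have h16 : (1 - ε / 4) * z = z - ε / 4 * (z - 1) - ε / 4 := by ring
    rw [h16]
    linarith
  have h15 : z * ((1 - ε / 4) * ((1 - ε / 4) * t)) ≤ v ^ 2 := by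
    refine le_trans ?_ h14
    have : z * ((1 - ε / 4) * ((1 - ε / 4) * t)) = (1 - ε / 4) * z * ((1 - ε / 4) * t) := by ring
    rw [this]
    apply mul_le_mul_of_nonneg_left h13
    apply mul_nonneg (by linarith) hz0.le
  have h16 : z * ((1 / 3 - ε / 4) * ((1 - ε / 4) * ((1 - ε / 4) * t))) ≤ z * (1 + s) := by
    refine le_trans ?_ h4
    have : z * ((1 / 3 - ε / 4) * ((1 - ε / 4) * ((1 - ε / 4) * t))) =
        (1 / 3 - ε / 4) * (z * ((1 - ε / 4) * ((1 - ε / 4) * t))) := by ring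
    rw [this]
    apply mul_le_mul_of_nonneg_left h15
    linarith
  have h17 := le_of_mul_le_mul_left h16 hz0
  have h18 : (1 / 3 - 3 * ε / 4) * t ≤ (1 / 3 - ε / 4) * ((1 - ε / 4) * ((1 - ε / 4) * t)) := by
    have : (1 / 3 - ε / 4) * ((1 - ε / 4) * ((1 - ε / 4) * t)) =
      ((1 / 3 - ε / 4) * ((1 - ε / 4) * (1 - ε / 4))) * t := by ring
    rw [this]
    apply mul_le_mul_of_nonneg_right _ hT0
    have h19 : (1 / 3 - ε / 4) * ((1 - ε / 4) * (1 - ε / 4)) =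
        1 / 3 - ε / 4 - ε / 6 + ε ^ 2 * (7 / 48 - ε / 64) := by ring
    rw [h19]
    have h20 : 0 ≤ ε ^ 2 * (7 / 48 - ε / 64) := mul_nonneg (by positivity) (by linarith)
    linarith
  linarith

end Pool.Agent.K7.H63.RT
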