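import Mathlib
import Pool.Agent.K7.H63.RT.Abs
import Pool.Agent.K7.H63.TQ.Scale

/-! A third of the rationals `a / b` are of the form `(q - h) / (p - h)`. -/

set_option autoImplicit false

namespace Pool.Agent.K7.H63.RT

open Finset Filter Pool.Agent.K7.H63.TQ

/-- the forms admitted at the scale `N` -/
def FZ (X N : ℕ) : Set (ℤ × ℤ) := {f | 1 ≤ f.1 ∧ f.1 ≤ X ∧ 1000 * |f.2| ≤ (N : ℤ)}

/-- two of four classes at one scale -/
theorem hit_scale : ∃ K : ℕ, 1 ≤ K ∧ ∀ X : ℕ, ∀ η : ℝ, 0 < η → ∀ᶠ N : ℕ in atTop,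
    HitR K (FZ X N) (RN N η) := by
  obtain ⟨c₀, hc₀, hc₁, hex⟩ := Pool.Agent.TH899.UG.NW.exactW
  obtain ⟨K, hK, hex⟩ := hex (1 / 8) (1 / 4) le_rfl (by norm_num) le_rfl 4 1 (by norm_num)
    (by push_cast; linarith)
  refine ⟨K, hK, fun X η hη => ?_⟩
  filter_upwards [hex X η hη] with N hN A hF hinj hadm
  obtain ⟨S, σ, hS, hcard⟩ := hN (fun g i => (A g i).1) (fun g i => (A g i).2)
    (fun g i => by
      obtain ⟨h1, -⟩ := hF g i
      intro h
      rw [h] at h1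
      omega)
    (fun g i => by
      obtain ⟨h1, h2, -⟩ := hF g i
      rw [abs_of_nonneg (by linarith)]
      exact h2)
    (fun g i => by
      obtain ⟨-, -, h3⟩ := hF g i
      have h4 : (0 : ℤ) ≤ N := Int.natCast_nonneg _
      have h5 := abs_nonneg (A g i).2
      omega)
    (fun g i y hy _ => by
      obtain ⟨h1, -, h3⟩ := hF g i
      have h1' : (1 : ℝ) ≤ ((A g i).1 : ℝ) := by exact_mod_cast h1
      have h3' : (1000 : ℝ) * |((A g i).2 : ℝ)| ≤ N := by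
        have : ((1000 * |(A g i).2| : ℤ) : ℝ) ≤ ((N : ℤ) : ℝ) := by exact_mod_cast h3
        push_cast at this
        exact this
      have h4 := neg_abs_le ((A g i).2 : ℝ)
      have hN0 : (0 : ℝ) ≤ N := Nat.cast_nonneg _
      have hy0 : 0 ≤ y := by linarith
      have h5 : y ≤ ((A g i).1 : ℝ) * y := le_mul_of_one_le_left hy0 h1'
      linarith)
    (by
      intro x y hxy
      apply hinj
      simp only [Prod.mk.injEq] at hxy
      exact Prod.ext hxy.1 hxy.2)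
    (fun p hp => hadm p hp)
  obtain ⟨g1, hg1, g2, hg2, hg12⟩ := Finset.one_lt_card.1 (by omega : 1 < S.card)
  refine ⟨g1, g2, σ g1, σ g2, hg12, ?_⟩
  refine hcard.trans ?_
  rw [Nat.cast_le]
  apply card_le_card
  intro n hn
  obtain ⟨h1, h2, h3, h4⟩ := mem_filter.1 hn
  exact mem_filter.2 ⟨h1, h2, h3, h4 g1 hg1, h4 g2 hg2⟩

open Classical in
/-- infinitely many prime solutions -/
theorem rat_big (ε : ℝ) (hε : 0 < ε) (hε1 : ε ≤ 1 / 3) : ∃ C : ℝ, 2 ≤ C ∧ ∀ (h : ℤ) (X : ℕ),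
    C ≤ W h.natAbs X → (1 / 3 - ε) * T h.natAbs X ≤ S h.natAbs X (fun a b => a ≠ b ∧
      Pool.Agent.H732R3.BigQ.Big
        {q : ℕ | q.Prime ∧ ∃ p : ℕ, p.Prime ∧ (a : ℤ) * p - (b : ℤ) * q = h * (a - b)}) := by
  obtain ⟨K, hK, hhit⟩ := hit_big
  obtain ⟨C, hC, H⟩ := third_abs K hK ε hε hε1
  refine ⟨max C 2, le_max_right _ _, fun h X hCW => ?_⟩
  refine H {f | 1 ≤ f.1} Pool.Agent.TH899.UG.PairBig (fun x y h => h.symm) hhit h X ?_
    ((le_max_left _ _).trans hCW) _ ?_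
  · intro m h1 _
    show (1 : ℤ) ≤ (m : ℤ)
    exact_mod_cast h1
  · intro d a b hd ha hb _ _ _ _ hR
    have hR' : Pool.Agent.H732R3.BigQ.Big {n : ℕ | (0 < ((d * a : ℕ) : ℤ) * (n : ℤ) + h ∧
        Prime (((d * a : ℕ) : ℤ) * (n : ℤ) + h)) ∧ (0 < ((d * b : ℕ) : ℤ) * (n : ℤ) + h ∧
        Prime (((d * b : ℕ) : ℤ) * (n : ℤ) + h))} := hR
    refine Pool.Agent.H732R3.BigQ.Big.affine hR' (d * a) h (Nat.mul_pos hd ha)
      (fun n => (((d * a : ℕ) : ℤ) * (n : ℤ) + h).toNat) ?_ ?_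
    · intro n hn
      exact Int.toNat_of_nonneg hn.1.1.le
    · intro n hn
      obtain ⟨⟨h1, h2⟩, h3, h4⟩ := hn
      refine ⟨?_, (((d * b : ℕ) : ℤ) * (n : ℤ) + h).toNat, ?_, ?_⟩
      · rw [Nat.prime_iff_prime_int, Int.toNat_of_nonneg h1.le]
        exact h2
      · rw [Nat.prime_iff_prime_int, Int.toNat_of_nonneg h3.le]
        exact h4
      · rw [Int.toNat_of_nonneg h1.le, Int.toNat_of_nonneg h3.le]
        push_cast
        ring

open Classical in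
/-- prime solutions at every scale -/
theorem rat_scale (ε : ℝ) (hε : 0 < ε) (hε1 : ε ≤ 1 / 3) : ∃ C : ℝ, 2 ≤ C ∧ ∀ X : ℕ, 1 ≤ X → ∀ η : ℝ, 0 < η →
    η ≤ 1 → ∀ᶠ Z : ℕ in atTop, ∀ h : ℤ, 1000 * X * h.natAbs ≤ Z → C ≤ W h.natAbs X →
    (1 / 3 - ε) * T h.natAbs X ≤ S h.natAbs X (fun a b => a ≠ b ∧ (Z : ℝ) ^ (1 - η) ≤
        ((Pool.Agent.R482.solq a b (h * (a - b)) (Z / (1000 * X : ℕ)) Z).ncard : ℝ)) := by
  obtain ⟨K, hK, hhit⟩ := hit_scale
  obtain ⟨C, hC, H⟩ := third_abs K hK ε hε hε1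
  refine ⟨max C 2, le_max_right _ _, fun X hX1 η hη hη1 => ?_⟩
  have hdivt : Tendsto (fun Z : ℕ => Z / X ^ 1) atTop atTop := by
    refine tendsto_atTop.2 fun B => ?_
    filter_upwards [eventually_ge_atTop (B * X ^ 1)] with Z hZ
    exact (Nat.le_div_iff_mul_le (by positivity)).2 hZ
  filter_upwards [hdivt.eventually (hhit X (η / 2) (by positivity)),
    Pool.Agent.Y863.AA.scale X 1 hX1 η hη hη1,
    hdivt.eventually (eventually_ge_atTop 1)] with Z hN hsc hN1 h hhZ hCW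
  obtain ⟨N, hNdef⟩ : ∃ N : ℕ, N = Z / X ^ 1 := ⟨_, rfl⟩
  rw [← hNdef] at hN hsc hN1
  rw [pow_one] at hNdef
  have hN0 : (0 : ℝ) < N := by exact_mod_cast hN1
  have hXr : (0 : ℝ) < X := by exact_mod_cast hX1
  have hXr1 : (1 : ℝ) ≤ X := by exact_mod_cast hX1
  -- `h` is small compared with `N`
  have hYN : 1000 * h.natAbs ≤ N := by
    rw [hNdef, Nat.le_div_iff_mul_le (by omega)]
    calc 1000 * h.natAbs * X = 1000 * X * h.natAbs := by ring
      _ ≤ Z := hhZ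
  refine H (FZ X N) (RN N (η / 2)) (fun x y h => RN_symm N _ x y h) hN h X ?_
    ((le_max_left _ _).trans hCW) _ ?_
  · intro m h1 h2
    refine ⟨?_, ?_, ?_⟩
    · show (1 : ℤ) ≤ (m : ℤ); exact_mod_cast h1
    · show (m : ℤ) ≤ X; exact_mod_cast h2
    · show 1000 * |h| ≤ (N : ℤ)
      rw [Int.abs_eq_natAbs]
      exact_mod_cast hYN
  · intro d a b hd ha hb hdX hdX' _ _ hR
    have hGα0 : 0 < d * a := Nat.mul_pos hd ha
    refine hsc.2.trans (le_trans hR ?_)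
    rw [Nat.cast_le]
    have e1 : (h * ((a : ℤ) - b)) = ((1 : ℕ) : ℤ) * (h * ((a : ℤ) - b)) := by push_cast; ring
    rw [e1]
    refine Pool.Agent.R482.pair_count (α₁ := d * a) (α₂ := d * b) (β₁ := h) (β₂ := h)
      (G := d) (t := 1) (a := a) (b := b) hd rfl rfl ?_ hGα0 _ _ _ ?_
    · push_cast
      ring
    intro n hn
    obtain ⟨hnI, hn1, hn2, hn3, hn4⟩ := mem_filter.1 hn
    have hbN : |(h : ℝ)| ≤ N / 1000 := by
      have h2 : (1000 : ℝ) * (h.natAbs : ℝ) ≤ N := by exact_mod_cast hYN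
      have h3 : (h.natAbs : ℝ) = |(h : ℝ)| := by
        rw [Nat.cast_natAbs]; push_cast; rfl
      rw [← h3]
      linarith
    have hb1 := neg_abs_le (h : ℝ)
    have hb2 := le_abs_self (h : ℝ)
    have h6 : ((((d * a : ℕ) : ℤ) * n + h : ℤ) : ℝ) = ((d * a : ℕ) : ℝ) * n + h := by
      push_cast; ring
    have h7 : (1 : ℝ) ≤ ((d * a : ℕ) : ℝ) := by exact_mod_cast hGα0
    have h8 : ((d * a : ℕ) : ℝ) ≤ X := by exact_mod_cast hdX
    have hn0 : (0 : ℝ) ≤ n := Nat.cast_nonneg _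
    refine ⟨hn3, hn4, ?_, ?_⟩
    · rw [h6]
      have h9 : (Z : ℝ) ≤ N * (2 * (X : ℝ) ^ 1) := (div_le_iff₀ (by positivity)).1 hsc.1
      rw [pow_one] at h9
      have h10 : (0 : ℝ) < ((1000 * X : ℕ) : ℝ) := by positivity
      have h11 : (n : ℝ) ≤ ((d * a : ℕ) : ℝ) * n := le_mul_of_one_le_left hn0 h7
      have h12 : (Z : ℝ) / ((1000 * X : ℕ) : ℝ) ≤ N / 500 := by
        rw [div_le_iff₀ h10]
        push_cast
        nlinarith
      linarith
    · rw [h6]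
      have h9 : (N : ℝ) * (X : ℝ) ≤ Z := by
        have := Nat.div_mul_le_self Z X
        rw [← hNdef] at this
        exact_mod_cast this
      have h10 : (N : ℝ) ≤ N * (X : ℝ) := le_mul_of_one_le_right hN0.le hXr1
      have h11 : ((d * a : ℕ) : ℝ) * n ≤ (X : ℝ) * (1 / 4 * N) :=
        mul_le_mul h8 hn2 hn0 (by positivity)
      linarith

end Pool.Agent.K7.H63.RT
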